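import Pool.Agent.FKP.Stmts

/-!
# SYM: the symmetric lift
-/

set_option autoImplicit false

open Finset

noncomputable section

namespace Pool.Agent.FKP.H65

open Pool.Agent.FKP

/-- elementary symmetric function -/
def es {σ R : Type} [CommRing R] (S : Finset σ) (g : σ → R) (k : ℕ) : R :=
  ∑ s ∈ powersetCard k S, ∏ i ∈ s, g i

theorem es_hom {σ R R' : Type} [CommRing R] [CommRing R'] (φ : R →+* R') (S : Finset σ)
    (g : σ → R) (k : ℕ) : φ (es S g k) = es S (fun i => φ (g i)) k := by
  unfold es
  rw [map_sum]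
  exact sum_congr rfl fun s _ => map_prod _ _ _

theorem es_emb {σ τ R : Type} [CommRing R] (ι : σ ↪ τ) (S : Finset σ) (g : τ → R) (k : ℕ) :
    es (S.map ι) g k = es S (fun i => g (ι i)) k := by
  unfold es
  rw [powersetCard_map, sum_map]
  refine sum_congr rfl fun s _ => ?_
  exact prod_map _ _ _

theorem es_zero {σ R : Type} [CommRing R] (S : Finset σ) (g : σ → R) : es S g 0 = 1 := by
  unfold es
  simp

theorem es_insert {σ R : Type} [DecidableEq σ] [CommRing R] (S : Finset σ) (g : σ → R) (b : σ)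
    (hb : b ∉ S) (k : ℕ) : es (insert b S) g (k + 1) = es S g (k + 1) + g b * es S g k := by
  unfold es
  rw [powersetCard_succ_insert hb, sum_union, sum_image, mul_sum]
  · congr 1
    refine sum_congr rfl fun s hs => ?_
    rw [mem_powersetCard] at hs
    rw [prod_insert fun h => hb (hs.1 h)]
  · intro s hs t ht h
    rw [mem_coe, mem_powersetCard] at hs ht
    have h1 : b ∉ s := fun h => hb (hs.1 h)
    have h2 : b ∉ t := fun h => hb (ht.1 h)
    rw [← erase_insert h1, ← erase_insert h2, h]
  · rw [disjoint_left]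
    intro s hs hs'
    rw [mem_powersetCard] at hs
    rw [mem_image] at hs'
    obtain ⟨t, -, rfl⟩ := hs'
    exact hb (hs.1 (mem_insert_self _ _))

theorem es_vanish {σ R : Type} [CommRing R] {S T : Finset σ} (g : σ → R) (hT : T ⊆ S)
    (h : ∀ i ∈ S, i ∉ T → g i = 0) (k : ℕ) : es S g k = es T g k := by
  unfold es
  symm
  refine sum_subset (powersetCard_mono hT) fun s hs hs' => ?_
  rw [mem_powersetCard] at hs hs'
  have : ¬ s ⊆ T := fun h => hs' ⟨h, hs.2⟩
  rw [not_subset] at this
  obtain ⟨i, hi, hi'⟩ := this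
  exact prod_eq_zero hi (h i (hs.1 hi) hi')

theorem es_mod {σ R : Type} [DecidableEq σ] [CommRing R] (J : Ideal R) (g : σ → R) (A : Finset σ)
    (hA : ∀ k, 1 ≤ k → es A g k ∈ J) (B : Finset σ) (hAB : Disjoint A B) :
    ∀ k, es (A ∪ B) g k - es B g k ∈ J := by
  induction B using Finset.induction_on with
  | empty =>
    intro k
    rw [union_empty]
    rcases k with _ | k
    · rw [es_zero, es_zero, sub_self]
      exact J.zero_mem
    · have : es (∅ : Finset σ) g (k + 1) = 0 := by
        unfold es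
        rw [powersetCard_eq_empty.2 (by simp), sum_empty]
      rw [this, sub_zero]
      exact hA _ (by omega)
  | insert b B hb ih =>
    rw [disjoint_insert_right] at hAB
    intro k
    rcases k with _ | k
    · rw [es_zero, es_zero, sub_self]
      exact J.zero_mem
    · rw [union_insert, es_insert _ _ _ (by
        rw [mem_union]
        rintro (h | h)
        · exact hAB.1 h
        · exact hb h), es_insert _ _ _ hb]
      have h1 := ih hAB.2 (k + 1)
      have h2 := J.mul_mem_left (g b) (ih hAB.2 k)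
      have e : es (A ∪ B) g (k + 1) + g b * es (A ∪ B) g k - (es B g (k + 1) + g b * es B g k) =
        (es (A ∪ B) g (k + 1) - es B g (k + 1)) + g b * (es (A ∪ B) g k - es B g k) := by ring
      rw [e]
      exact J.add_mem h1 h2

theorem ek_eq (N j k : ℕ) :
    ek N j k = es (univ.filter fun i : Fin N => i.val < j) MvPolynomial.X k := rfl

/-! ## The fundamental theorem with parameters -/

/-- polynomials in the first `r` variables with coefficients in the polynomials in the others -/
def Φ (r t : ℕ) : MvPolynomial (Fin (r + t)) ℤ ≃ₐ[ℤ]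
    MvPolynomial (Fin r) (MvPolynomial (Fin t) ℤ) :=
  (MvPolynomial.renameEquiv ℤ finSumFinEquiv.symm).trans
    (MvPolynomial.sumAlgEquiv ℤ (Fin r) (Fin t))

theorem Φ_l (r t : ℕ) (a : Fin r) :
    Φ r t (MvPolynomial.X (Fin.castAdd t a)) = MvPolynomial.X a := by
  simp [Φ]

theorem Φ_r (r t : ℕ) (a : Fin t) :
    Φ r t (MvPolynomial.X (Fin.natAdd r a)) = MvPolynomial.C (MvPolynomial.X a) := by
  simp [Φ]

theorem Φs_l (r t : ℕ) (a : Fin r) :
    (Φ r t).symm (MvPolynomial.X a) = MvPolynomial.X (Fin.castAdd t a) := by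
  rw [← Φ_l, AlgEquiv.symm_apply_apply]

theorem Φs_r (r t : ℕ) (a : Fin t) :
    (Φ r t).symm (MvPolynomial.C (MvPolynomial.X a)) = MvPolynomial.X (Fin.natAdd r a) := by
  rw [← Φ_r, AlgEquiv.symm_apply_apply]

theorem Φ_swap (r t : ℕ) (a b : Fin r) (f : MvPolynomial (Fin (r + t)) ℤ) :
    MvPolynomial.rename (Equiv.swap a b) (Φ r t f) =
      Φ r t (MvPolynomial.rename (Equiv.swap (Fin.castAdd t a) (Fin.castAdd t b)) f) := by
  have : (MvPolynomial.rename (Equiv.swap a b)).toRingHom.comp (Φ r t).toRingEquiv.toRingHom =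
      (Φ r t).toRingEquiv.toRingHom.comp
        (MvPolynomial.rename (Equiv.swap (Fin.castAdd t a) (Fin.castAdd t b))).toRingHom := by
    refine hom_ext fun i => ?_
    show MvPolynomial.rename (Equiv.swap a b) (Φ r t (MvPolynomial.X i)) =
      Φ r t (MvPolynomial.rename (Equiv.swap (Fin.castAdd t a) (Fin.castAdd t b))
        (MvPolynomial.X i))
    refine Fin.addCases (fun c => ?_) (fun c => ?_) i
    · rw [Φ_l, MvPolynomial.rename_X, MvPolynomial.rename_X]
      have : Equiv.swap (Fin.castAdd t a) (Fin.castAdd t b) (Fin.castAdd t c) =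
          Fin.castAdd t (Equiv.swap a b c) :=
        (Fin.castAdd_injective r t).swap_apply a b c
      rw [this, Φ_l]
    · rw [Φ_r, MvPolynomial.rename_X, MvPolynomial.rename_C,
        Equiv.swap_apply_of_ne_of_ne, Φ_r]
      · intro h
        have := congrArg Fin.val h
        simp at this
        omega
      · intro h
        have := congrArg Fin.val h
        simp at this
        omega
  exact RingHom.congr_fun this f

/-- the algebra generated by the elementary symmetric polynomials and the other variables -/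
def AA (r t : ℕ) : Subalgebra ℤ (MvPolynomial (Fin (r + t)) ℤ) :=
  Algebra.adjoin ℤ ({z | ∃ k, z = ek (r + t) r k} ∪
      {z | ∃ c : Fin (r + t), r ≤ c.val ∧ z = MvPolynomial.X c})

theorem Φs_C (r t : ℕ) (s : MvPolynomial (Fin t) ℤ) :
    (Φ r t).symm (MvPolynomial.C s) ∈ AA r t := by
  induction s using MvPolynomial.induction_on with
  | C a =>
    have : (MvPolynomial.C (MvPolynomial.C a) : MvPolynomial (Fin r) (MvPolynomial (Fin t) ℤ)) =
        algebraMap ℤ _ a := by
      rfl
    rw [this, AlgEquiv.commutes]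
    exact Subalgebra.algebraMap_mem _ a
  | add p q hp hq =>
    rw [map_add, map_add]
    exact Subalgebra.add_mem _ hp hq
  | mul_X p i hp =>
    rw [map_mul, map_mul, Φs_r]
    refine Subalgebra.mul_mem _ hp (Algebra.subset_adjoin (Or.inr ⟨_, ?_, rfl⟩))
    simp

theorem filt (r t : ℕ) : (univ.filter fun i : Fin (r + t) => i.val < r) =
    (univ : Finset (Fin r)).map (Fin.castAddEmb t) := by
  ext i
  rw [mem_filter, mem_map]
  constructor
  · rintro ⟨-, h⟩
    exact ⟨⟨i.val, h⟩, mem_univ _, rfl⟩
  · rintro ⟨a, -, rfl⟩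
    exact ⟨mem_univ _, a.isLt⟩

theorem Φs_esymm (r t k : ℕ) :
    (Φ r t).symm (MvPolynomial.esymm (Fin r) (MvPolynomial (Fin t) ℤ) k) ∈ AA r t := by
  have : (Φ r t).symm (MvPolynomial.esymm (Fin r) (MvPolynomial (Fin t) ℤ) k) =
      ek (r + t) r k := by
    rw [ek_eq, filt, es_emb]
    show (Φ r t).symm.toRingEquiv.toRingHom (es (univ : Finset (Fin r)) MvPolynomial.X k) = _
    rw [es_hom]
    congr 1
    funext i
    exact Φs_l r t i
  rw [this]
  exact Algebra.subset_adjoin (Or.inl ⟨k, rfl⟩)

theorem mem_AA (r t : ℕ) (f : MvPolynomial (Fin (r + t)) ℤ)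
    (hf : ∀ a b : Fin (r + t), a.val < r → b.val < r →
      MvPolynomial.rename (Equiv.swap a b) f = f) : f ∈ AA r t := by
  have hs : (Φ r t f).IsSymmetric := by
    intro e
    induction e using Equiv.Perm.swap_induction_on with
    | one => exact MvPolynomial.rename_id_apply _
    | swap_mul g x y _ ih =>
      rw [Equiv.Perm.coe_mul, ← MvPolynomial.rename_rename, ih, Φ_swap,
        hf _ _ (by simp) (by simp)]
  obtain ⟨q, hq⟩ := MvPolynomial.esymmAlgHom_fin_surjective (MvPolynomial (Fin t) ℤ) (le_refl r)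
    ⟨Φ r t f, hs⟩
  have hq' : Φ r t f =
      MvPolynomial.aeval (fun i : Fin r => MvPolynomial.esymm (Fin r) _ (i.val + 1)) q := by
    rw [← MvPolynomial.esymmAlgHom_apply, hq]
  have e : f = (Φ r t).symm (Φ r t f) := (AlgEquiv.symm_apply_apply _ _).symm
  rw [e, hq']
  clear hq hq' e
  induction q using MvPolynomial.induction_on with
  | C s =>
    rw [MvPolynomial.aeval_C, MvPolynomial.algebraMap_eq]
    exact Φs_C r t s
  | add p q hp hq =>
    rw [map_add, map_add]
    exact Subalgebra.add_mem _ hp hq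
  | mul_X p i hp =>
    rw [map_mul, map_mul, MvPolynomial.aeval_X]
    exact Subalgebra.mul_mem _ hp (Φs_esymm r t _)

/-! ## The lift -/

/-- the four properties -/
def Lf (m r s : ℕ) (f : MvPolynomial (Fin m) ℤ) (G : MvPolynomial (Fin (m + s)) ℤ) : Prop :=
  (∀ a b : Fin (m + s), a.val < r + s → b.val < r + s →
      MvPolynomial.rename (Equiv.swap a b) G = G) ∧
    (∀ e : Fin m → Fin (m + s), StrictMono e → (∀ a, r ≤ a.val → (e a).val = a.val + s) →
      kilpE e G = f) ∧
    G ∈ Algebra.adjoin ℤ ({z | ∃ k, z = ek (m + s) (r + s) k} ∪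
      {z | ∃ c : Fin (m + s), r + s ≤ c.val ∧ z = MvPolynomial.X c}) ∧
    G - MvPolynomial.rename (fun a : Fin m => Fin.addNat a s) f ∈
      Ideal.span {z | ∃ k, 1 ≤ k ∧ z = ek (m + s) s k}

theorem Lf_add {m r s : ℕ} {f f' : MvPolynomial (Fin m) ℤ} {G G' : MvPolynomial (Fin (m + s)) ℤ}
    (h : Lf m r s f G) (h' : Lf m r s f' G') : Lf m r s (f + f') (G + G') := by
  obtain ⟨h1, h2, h3, h4⟩ := h
  obtain ⟨k1, k2, k3, k4⟩ := h'
  refine ⟨fun a b ha hb => by rw [map_add, h1 a b ha hb, k1 a b ha hb],
    fun e he he' => by rw [map_add, h2 e he he', k2 e he he'], Subalgebra.add_mem _ h3 k3, ?_⟩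
  rw [map_add, add_sub_add_comm]
  exact Ideal.add_mem _ h4 k4

theorem Lf_mul {m r s : ℕ} {f f' : MvPolynomial (Fin m) ℤ} {G G' : MvPolynomial (Fin (m + s)) ℤ}
    (h : Lf m r s f G) (h' : Lf m r s f' G') : Lf m r s (f * f') (G * G') := by
  obtain ⟨h1, h2, h3, h4⟩ := h
  obtain ⟨k1, k2, k3, k4⟩ := h'
  refine ⟨fun a b ha hb => by rw [map_mul, h1 a b ha hb, k1 a b ha hb],
    fun e he he' => by rw [map_mul, h2 e he he', k2 e he he'], Subalgebra.mul_mem _ h3 k3, ?_⟩
  rw [map_mul]
  have e : G * G' - MvPolynomial.rename (fun a : Fin m => Fin.addNat a s) f *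
      MvPolynomial.rename (fun a : Fin m => Fin.addNat a s) f' =
      G' * (G - MvPolynomial.rename (fun a : Fin m => Fin.addNat a s) f) +
      MvPolynomial.rename (fun a : Fin m => Fin.addNat a s) f *
        (G' - MvPolynomial.rename (fun a : Fin m => Fin.addNat a s) f') := by ring
  rw [e]
  exact Ideal.add_mem _ (Ideal.mul_mem_left _ _ h4) (Ideal.mul_mem_left _ _ k4)

theorem Lf_alg {m r s : ℕ} (c : ℤ) :
    Lf m r s (algebraMap ℤ _ c) (algebraMap ℤ _ c) := by
  refine ⟨fun a b _ _ => ?_, fun e _ _ => ?_, Subalgebra.algebraMap_mem _ c, ?_⟩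
  · rw [AlgHom.commutes]
  · rw [eq_intCast, map_intCast, eq_intCast]
  · rw [AlgHom.commutes, sub_self]
    exact Ideal.zero_mem _

theorem Lf_ek {m r s : ℕ} (hr : r ≤ m) (k : ℕ) :
    Lf m r s (ek m r k) (ek (m + s) (r + s) k) := by
  refine ⟨fun a b ha hb => ?_, fun e he he' => ?_, Algebra.subset_adjoin (Or.inl ⟨k, rfl⟩), ?_⟩
  · rw [ek_eq]
    show (MvPolynomial.rename (Equiv.swap a b)).toRingHom _ = _
    rw [es_hom]
    have e1 : (fun i : Fin (m + s) => (MvPolynomial.rename (R := ℤ)
        (Equiv.swap a b)).toRingHom (MvPolynomial.X i)) =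
        fun i => MvPolynomial.X ((Equiv.swap a b).toEmbedding i) := by
      funext i
      exact MvPolynomial.rename_X _ _
    rw [e1, ← es_emb]
    congr 1
    ext i
    rw [mem_map_equiv, mem_filter, mem_filter, Equiv.symm_swap]
    have : (Equiv.swap a b i).val < r + s ↔ i.val < r + s := by
      by_cases h1 : i = a
      · rw [h1, Equiv.swap_apply_left]
        exact ⟨fun _ => ha, fun _ => hb⟩
      · by_cases h2 : i = b
        · rw [h2, Equiv.swap_apply_right]
          exact ⟨fun _ => hb, fun _ => ha⟩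
        · rw [Equiv.swap_apply_of_ne_of_ne h1 h2]
    rw [this]
    simp
  · rw [ek_eq, es_hom]
    have hlt : ∀ a : Fin m, (e a).val < r + s ↔ a.val < r := by
      intro a
      constructor
      · intro h
        by_contra h'
        rw [he' a (by omega)] at h
        omega
      · intro h
        by_cases hrm : r < m
        · have := he (show a < ⟨r, hrm⟩ from h)
          have h2 := he' ⟨r, hrm⟩ (le_refl r)
          have h3 : (e a).val < (e ⟨r, hrm⟩).val := this
          rw [h2] at h3
          exact h3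
        · have : m = r := by omega
          have := (e a).isLt
          omega
    rw [es_vanish (T := (univ.filter fun i : Fin m => i.val < r).map ⟨e, he.injective⟩), es_emb,
      ek_eq]
    · congr 1
      funext i
      exact kilpE_X e he i
    · intro i hi
      rw [mem_map] at hi
      obtain ⟨a, ha, rfl⟩ := hi
      rw [mem_filter] at ha ⊢
      exact ⟨mem_univ _, (hlt a).2 ha.2⟩
    · intro i hi hi'
      apply kilpE_zero
      rintro ⟨a, rfl⟩
      apply hi'
      rw [mem_map]
      rw [mem_filter] at hi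
      exact ⟨a, mem_filter.2 ⟨mem_univ _, (hlt a).1 hi.2⟩, rfl⟩
  · have e1 : MvPolynomial.rename (fun a : Fin m => Fin.addNat a s) (ek m r k) =
        es ((univ.filter fun i : Fin m => i.val < r).map (Fin.addNatEmb s))
          (MvPolynomial.X (R := ℤ)) k := by
      rw [ek_eq, es_emb]
      show (MvPolynomial.rename (fun a : Fin m => Fin.addNat a s)).toRingHom _ = _
      rw [es_hom]
      congr 1
      funext i
      exact MvPolynomial.rename_X _ _
    have e2 : (univ.filter fun i : Fin (m + s) => i.val < r + s) =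
        (univ.filter fun i : Fin (m + s) => i.val < s) ∪
        (univ.filter fun i : Fin m => i.val < r).map (Fin.addNatEmb s) := by
      ext i
      rw [mem_union, mem_filter, mem_filter, mem_map]
      constructor
      · rintro ⟨-, h⟩
        by_cases hs : i.val < s
        · exact Or.inl ⟨mem_univ _, hs⟩
        · refine Or.inr ⟨⟨i.val - s, by omega⟩, ?_, ?_⟩
          · rw [mem_filter]
            exact ⟨mem_univ _, by show i.val - s < r; omega⟩
          · apply Fin.ext
            show i.val - s + s = i.val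
            omega
      · rintro (⟨-, h⟩ | ⟨a, ha, rfl⟩)
        · exact ⟨mem_univ _, by omega⟩
        · rw [mem_filter] at ha
          refine ⟨mem_univ _, ?_⟩
          show a.val + s < r + s
          omega
    rw [e1, ek_eq, e2]
    have hA : ∀ j, 1 ≤ j → es (univ.filter fun i : Fin (m + s) => i.val < s)
        (MvPolynomial.X (R := ℤ)) j ∈ Ideal.span {z | ∃ k, 1 ≤ k ∧ z = ek (m + s) s k} :=
      fun j hj => Ideal.subset_span (Set.mem_ofPred_eq ▸ ⟨j, hj, rfl⟩)
    refine es_mod _ _ _ hA _ ?_ k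
    rw [disjoint_left]
    intro i hi hi'
    rw [mem_filter] at hi
    rw [mem_map] at hi'
    obtain ⟨a, -, rfl⟩ := hi'
    have : a.val + s < s := hi.2
    omega

theorem Lf_X {m r s : ℕ} (c : Fin m) (hc : r ≤ c.val) :
    Lf m r s (MvPolynomial.X c) (MvPolynomial.X (Fin.addNat c s)) := by
  refine ⟨fun a b ha hb => ?_, fun e he he' => ?_, Algebra.subset_adjoin (Or.inr ⟨_, ?_, rfl⟩), ?_⟩
  · rw [MvPolynomial.rename_X, Equiv.swap_apply_of_ne_of_ne]
    · intro h
      rw [← h] at ha
      have : c.val + s < r + s := ha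
      omega
    · intro h
      rw [← h] at hb
      have : c.val + s < r + s := hb
      omega
  · have : Fin.addNat c s = e c := by
      apply Fin.ext
      rw [he' c hc]
      rfl
    rw [this, kilpE_X e he]
  · show r + s ≤ c.val + s
    omega
  · rw [MvPolynomial.rename_X, sub_self]
    exact Ideal.zero_mem _

theorem lift_AA (r t s : ℕ) (f : MvPolynomial (Fin (r + t)) ℤ) (hf : f ∈ AA r t) :
    ∃ G, Lf (r + t) r s f G := by
  unfold AA at hf
  induction hf using Algebra.adjoin_induction with
  | mem z hz =>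
    rcases hz with ⟨k, rfl⟩ | ⟨c, hc, rfl⟩
    · exact ⟨_, Lf_ek (Nat.le_add_right r t) k⟩
    · exact ⟨_, Lf_X c hc⟩
  | algebraMap c => exact ⟨_, Lf_alg c⟩
  | add a b _ _ ha hb =>
    obtain ⟨G, hG⟩ := ha
    obtain ⟨G', hG'⟩ := hb
    exact ⟨_, Lf_add hG hG'⟩
  | mul a b _ _ ha hb =>
    obtain ⟨G, hG⟩ := ha
    obtain ⟨G', hG'⟩ := hb
    exact ⟨_, Lf_mul hG hG'⟩

theorem sym : SymStmt := by
  intro m r s hr f hf
  obtain ⟨t, rfl⟩ := Nat.exists_eq_add_of_le hr
  exact lift_AA r t s f (mem_AA r t f hf)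

end Pool.Agent.FKP.H65
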